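import Pool.Agent.V1185.Esc.Asy
import Pool.Agent.V1185.Esc.Up

/-!
# MP_071f48_an: `n ^ (10⁻⁷) ≤ S(n) ≤ 4 n`

`S(n)` is the length of the shortest path in the lemniscate region `{|f| ≤ 1}` from `0` to the unit
circle in the worst case over the monic polynomials `f` of degree `n` with all roots in the closed
unit disc.  It grows at least like a power of `n`, even for the polynomials all of whose roots lie
on the unit circle, and at most linearly.
-/

set_option autoImplicit false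

open Filter Topology Set Metric Complex Polynomial MeasureTheory
open scoped ENNReal

namespace Pool.Agent.Results.MP_071f48_an.PowerGrowth

/-- `f` is admissible of degree `n`: monic of degree `n`, all roots in the closed unit disc -/
def Admissible (n : ℕ) (f : ℂ[X]) : Prop :=
  f.Monic ∧ f.natDegree = n ∧ ∀ z : ℂ, f.eval z = 0 → ‖z‖ ≤ 1

/-- `L(f)`: the infimum of the one-dimensional Hausdorff measures of the images of the paths
`γ : [0,1] → E_f` from `0` to a point of the unit circle -/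
noncomputable def L (f : ℂ[X]) : ℝ≥0∞ :=
  sInf {ℓ | ∃ γ : unitInterval → ℂ, Continuous γ ∧ γ 0 = 0 ∧ ‖γ 1‖ = 1 ∧
    (∀ t, ‖f.eval (γ t)‖ ≤ 1) ∧ ℓ = μH[1] (range γ)}

/-- `S(n)`: the supremum of `L(f)` over the admissible polynomials of degree `n` -/
noncomputable def S (n : ℕ) : ℝ≥0∞ := sSup {ℓ | ∃ f : ℂ[X], Admissible n f ∧ ℓ = L f}

/-- the supremum of `L(f)` over the admissible polynomials of degree `n` all of whose roots lie on
the unit circle -/
noncomputable def SCircle (n : ℕ) : ℝ≥0∞ :=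
  sSup {ℓ | ∃ f : ℂ[X], Admissible n f ∧ (∀ z : ℂ, f.eval z = 0 → ‖z‖ = 1) ∧ ℓ = L f}

open Pool.Agent.V1185.Esc

/-- The upper bound `S(n) ≤ 4 n`. -/
theorem upper_bound (n : ℕ) (hn : 1 ≤ n) : S n ≤ 4 * n := by
  refine sSup_le ?_
  rintro ℓ ⟨f, ⟨hf, hd, hr⟩, rfl⟩
  refine ENNReal.le_of_forall_pos_le_add fun ε hε _ => ?_
  obtain ⟨δ, hδ⟩ : ∃ δ : ℝ, δ = min ((ε : ℝ) / 2) 1 := ⟨_, rfl⟩
  have hε' : (0 : ℝ) < ε := hε
  have hδ0 : 0 < δ := by rw [hδ]; positivity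
  have hδ1 : δ ≤ 1 := by rw [hδ]; exact min_le_right _ _
  have hδε : 2 * δ ≤ ε := by
    have : δ ≤ (ε : ℝ) / 2 := by rw [hδ]; exact min_le_left _ _
    linarith
  obtain ⟨ℓ, hℓ, hℓ2⟩ := upper f n hn hf hd hr δ hδ0 hδ1
  have h1 : L f ≤ ℓ := sInf_le hℓ
  refine h1.trans (hℓ2.trans (add_le_add le_rfl ?_))
  rw [← ENNReal.ofReal_coe_nnreal]
  exact ENNReal.ofReal_le_ofReal hδε

/-- all roots of the polynomials of the construction lie on the unit circle -/
theorem on_circle (f : ℂ[X]) (hf : f.Monic) (hr : ∀ z : ℂ, f.eval z = 0 → ‖z‖ ≤ 1)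
    (h0 : f.eval 0 = 1) (z : ℂ) (hz : f.eval z = 0) : ‖z‖ = 1 := by
  refine le_antisymm (hr z hz) ?_
  have hs : ∀ a ∈ f.roots, ‖a‖ ≤ 1 := fun a ha => hr a ((mem_roots hf.ne_zero).1 ha)
  have hprod : f = (f.roots.map fun a => X - C a).prod :=
    (IsAlgClosed.splits f).eq_prod_roots_of_monic hf
  have hmem : z ∈ f.roots := (mem_roots hf.ne_zero).2 hz
  obtain ⟨t, ht⟩ := Multiset.exists_cons_of_mem hmem
  rw [ht, Multiset.map_cons, Multiset.prod_cons] at hprod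
  have h1 : f.eval 0 = (0 - z) * ((t.map fun a => X - C a).prod).eval 0 := by
    conv_lhs => rw [hprod]
    simp only [eval_mul, eval_sub, eval_X, eval_C]
  have h2 := norm_le_rcp t (fun a ha => hs a (by rw [ht]; exact Multiset.mem_cons_of_mem ha)) 0
    (by simp)
  rw [rcp_zero, norm_one] at h2
  have h3 := congrArg norm h1
  rw [h0, norm_one, norm_mul, zero_sub, norm_neg] at h3
  have h4 : ‖z‖ * ‖((t.map fun a => X - C a).prod).eval 0‖ ≤ ‖z‖ * 1 :=
    mul_le_mul_of_nonneg_left h2 (norm_nonneg _)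
  linarith

/-- The lower bound. -/
theorem lower_bound : ∀ᶠ n : ℕ in atTop,
    ENNReal.ofReal ((n : ℝ) ^ (1 / 10 ^ 7 : ℝ)) ≤ SCircle n := by
  filter_upwards [level] with n hn
  obtain ⟨J, hJ, hthr, hpow⟩ := hn
  obtain ⟨f, hf, hd, hr, h0, hw⟩ := exists_f J hJ n hthr
  have h1 : L f ≤ SCircle n := le_sSup ⟨f, ⟨hf, hd, hr⟩, on_circle f hf hr h0, rfl⟩
  refine le_trans ?_ h1
  refine le_sInf ?_
  rintro ℓ ⟨γ, hγ, hγ0, hγ1, hγf, rfl⟩
  refine (ENNReal.ofReal_le_ofReal hpow).trans ?_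
  refine tube_lower J (isPreconnected_range hγ) (isCompact_range hγ).isClosed.measurableSet
    ⟨0, hγ0⟩ ⟨γ 1, ⟨1, rfl⟩, hγ1⟩ ?_
  rintro v a b c d ⟨t, ht⟩
  have h2 := hw v a b c d
  have h3 := hγf t
  rw [ht] at h3
  linarith

/-- **`n ^ (10⁻⁷) ≤ S(n) ≤ 4 n` for all large `n`**, the lower bound even for the polynomials with
all roots on the unit circle, the upper bound for all `n ≥ 1`. -/
theorem result :
    (∀ n : ℕ, 1 ≤ n → S n ≤ 4 * n) ∧
    (∀ n : ℕ, SCircle n ≤ S n) ∧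
    ∀ᶠ n : ℕ in atTop, ENNReal.ofReal ((n : ℝ) ^ (1 / 10 ^ 7 : ℝ)) ≤ SCircle n := by
  refine ⟨upper_bound, fun n => ?_, lower_bound⟩
  refine sSup_le ?_
  rintro ℓ ⟨f, hf, -, rfl⟩
  exact le_sSup ⟨f, hf, rfl⟩

end Pool.Agent.Results.MP_071f48_an.PowerGrowth
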